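import Pool.Agent.U515.SF.Gcd

/-! The choice of exponents with the loss `d(a) ^ 2`, for sets of integers without any condition on
`Ω`; and the sizes of `d(n)` and `ω(n)`. -/

namespace Pool.Agent.U515.SF

open Finset

lemma exists_level2 (A : Finset ℕ) (w u : ℕ → ℕ) :
    ∃ e : ℕ, ∑ a ∈ A, w a ≤
      ∑ a ∈ A.filter (fun a => u a = 0 ∨ u a = e), w a * (u a + 1) ^ 2 := by
  classical
  by_contra hcon
  push Not at hcon
  set A₁ := A.filter (fun a => u a ≠ 0) with hA₁
  set T : ℕ := ∑ a ∈ A₁, w a with hT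
  have hsplit : ∑ a ∈ A, w a = ∑ a ∈ A.filter (fun a => u a = 0), w a + T := by
    rw [hT, hA₁, Finset.sum_filter_add_sum_filter_not]
  have hlev : ∀ e, 1 ≤ e → (∑ a ∈ A₁ with u a = e, w a) * (e + 1) ^ 2 < T := by
    intro e he
    have h1 := hcon e
    have h2 : A.filter (fun a => u a = 0 ∨ u a = e) =
        A.filter (fun a => u a = 0) ∪ A₁.filter (fun a => u a = e) := by
      ext a
      simp only [hA₁, Finset.mem_filter, Finset.mem_union]
      constructor
      · rintro ⟨ha, h | h⟩
        · exact Or.inl ⟨ha, h⟩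
        · exact Or.inr ⟨⟨ha, by omega⟩, h⟩
      · rintro (⟨ha, h⟩ | ⟨⟨ha, _⟩, h⟩)
        · exact ⟨ha, Or.inl h⟩
        · exact ⟨ha, Or.inr h⟩
    have hd : Disjoint (A.filter (fun a => u a = 0)) (A₁.filter (fun a => u a = e)) := by
      rw [Finset.disjoint_left]
      intro a ha ha'
      have h3 := (Finset.mem_filter.mp ha).2
      have h4 := (Finset.mem_filter.mp ha').2
      omega
    rw [h2, Finset.sum_union hd, hsplit] at h1
    have h5 : ∑ a ∈ A.filter (fun a => u a = 0), w a * (u a + 1) ^ 2 =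
        ∑ a ∈ A.filter (fun a => u a = 0), w a := by
      refine Finset.sum_congr rfl (fun a ha => ?_)
      rw [(Finset.mem_filter.mp ha).2]
      ring
    have h6 : ∑ a ∈ A₁.filter (fun a => u a = e), w a * (u a + 1) ^ 2 =
        (∑ a ∈ A₁ with u a = e, w a) * (e + 1) ^ 2 := by
      rw [Finset.sum_mul]
      refine Finset.sum_congr rfl (fun a ha => ?_)
      rw [(Finset.mem_filter.mp ha).2]
    rw [h5, h6] at h1
    omega
  set N := A₁.sup u with hN
  have hfib : ∑ e ∈ Finset.Icc 1 N, ∑ a ∈ A₁ with u a = e, w a = T := by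
    rw [hT]
    apply Finset.sum_fiberwise_of_maps_to
    intro a ha
    rw [Finset.mem_Icc]
    refine ⟨?_, Finset.le_sup ha⟩
    have := (Finset.mem_filter.mp ha).2
    omega
  have hTpos : 0 < T := lt_of_le_of_lt (Nat.zero_le _) (hlev 1 le_rfl)
  have hgeo : ∀ n : ℕ, ∑ e ∈ Finset.Icc 1 n, ((1 : ℝ) / ((e : ℝ) + 1) ^ 2) ≤
      (1 : ℝ) - 1 / ((n : ℝ) + 1) := by
    intro n
    induction n with
    | zero => simp
    | succ n ih =>
      rw [Finset.sum_Icc_succ_top (by omega)]
      have h1 : (1 : ℝ) / (((n + 1 : ℕ) : ℝ) + 1) ^ 2 ≤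
          1 / ((n : ℝ) + 1) - 1 / (((n + 1 : ℕ) : ℝ) + 1) := by
        push_cast
        rw [div_sub_div _ _ (by positivity) (by positivity),
          div_le_div_iff₀ (by positivity) (by positivity)]
        nlinarith [(Nat.cast_nonneg n : (0 : ℝ) ≤ n)]
      linarith
  have hTr : (0 : ℝ) < (T : ℝ) := by exact_mod_cast hTpos
  have h7 : (T : ℝ) ≤ T * (1 - 1 / ((N : ℝ) + 1)) := by
    calc (T : ℝ) = ((∑ e ∈ Finset.Icc 1 N, ∑ a ∈ A₁ with u a = e, w a : ℕ) : ℝ) := by rw [hfib]
      _ = ∑ e ∈ Finset.Icc 1 N, ((∑ a ∈ A₁ with u a = e, w a : ℕ) : ℝ) := by push_cast; rfl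
      _ ≤ ∑ e ∈ Finset.Icc 1 N, (T : ℝ) * (1 / ((e : ℝ) + 1) ^ 2) := by
          refine Finset.sum_le_sum (fun e he => ?_)
          have h8 := hlev e (Finset.mem_Icc.mp he).1
          have h9 : ((∑ a ∈ A₁ with u a = e, w a : ℕ) : ℝ) * ((e : ℝ) + 1) ^ 2 < T := by
            exact_mod_cast h8
          rw [mul_one_div, le_div_iff₀ (by positivity)]
          exact h9.le
      _ ≤ T * (1 - 1 / ((N : ℝ) + 1)) := by
          rw [← Finset.mul_sum]
          exact mul_le_mul_of_nonneg_left (hgeo N) hTr.le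
  have h10 : (0 : ℝ) < 1 / ((N : ℝ) + 1) := by positivity
  nlinarith

lemma exists_exponents2 (P A : Finset ℕ) (v : ℕ → ℕ → ℕ) :
    ∃ c : ℕ → ℕ, A.card ≤ ∑ a ∈ A.filter (fun a => ∀ p ∈ P, v a p = 0 ∨ v a p = c p),
      ∏ p ∈ P, (v a p + 1) ^ 2 := by
  classical
  induction P using Finset.induction_on with
  | empty => exact ⟨fun _ => 0, by simp⟩
  | insert p P hp ih =>
    obtain ⟨c, hc⟩ := ih
    obtain ⟨e, he⟩ := exists_level2 (A.filter (fun a => ∀ p ∈ P, v a p = 0 ∨ v a p = c p))
      (fun a => ∏ p ∈ P, (v a p + 1) ^ 2) (fun a => v a p)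
    refine ⟨Function.update c p e, hc.trans (he.trans (le_of_eq ?_))⟩
    rw [Finset.filter_filter]
    have hset : A.filter (fun a => (∀ q ∈ P, v a q = 0 ∨ v a q = c q) ∧ (v a p = 0 ∨ v a p = e)) =
        A.filter (fun a => ∀ q ∈ insert p P, v a q = 0 ∨ v a q = Function.update c p e q) := by
      apply Finset.filter_congr
      intro a _
      constructor
      · rintro ⟨h1, h2⟩ q hq
        rcases Finset.mem_insert.mp hq with rfl | hq
        · rw [Function.update_self]
          exact h2
        · have hne : q ≠ p := fun h => hp (h ▸ hq)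
          rw [Function.update_of_ne hne]
          exact h1 q hq
      · intro h
        refine ⟨fun q hq => ?_, ?_⟩
        · have hne : q ≠ p := fun h => hp (h ▸ hq)
          have := h q (Finset.mem_insert_of_mem hq)
          rwa [Function.update_of_ne hne] at this
        · have := h p (Finset.mem_insert_self p P)
          rwa [Function.update_self] at this
    rw [hset]
    refine Finset.sum_congr rfl (fun a _ => ?_)
    rw [Finset.prod_insert hp, mul_comm]

/-- The transfer without a condition on `Ω`. -/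
theorem transfer2 (r : ℕ) (hr : 2 ≤ r) (D W : ℕ) (φ : ℕ → ℕ)
    (hφ : ∀ j ≤ W, ∀ F : Finset (Finset ℕ), (∀ S ∈ F, S.card = j) → SunFree r F → F.card ≤ φ j)
    (A : Finset ℕ) (hA : ∀ a ∈ A, 0 < a) (hD : ∀ a ∈ A, a.divisors.card ≤ D)
    (hW : ∀ a ∈ A, a.primeFactors.card ≤ W) (hfree : GcdFree r A) :
    A.card ≤ D ^ 2 * ∑ j ∈ range (W + 1), φ j := by
  classical
  set P : Finset ℕ := A.biUnion Nat.primeFactors with hP
  have hPa : ∀ a ∈ A, a.primeFactors ⊆ P := fun a ha => Finset.subset_biUnion_of_mem _ ha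
  obtain ⟨c, hc⟩ := exists_exponents2 P A (fun a p => a.factorization p)
  set A' := A.filter (fun a => ∀ p ∈ P, a.factorization p = 0 ∨ a.factorization p = c p) with hA'
  have hA'A : A' ⊆ A := Finset.filter_subset _ _
  have hd : ∀ a ∈ A, ∏ p ∈ P, (a.factorization p + 1) ^ 2 = a.divisors.card ^ 2 := by
    intro a ha
    rw [Finset.prod_pow, Nat.card_divisors (hA a ha).ne']
    congr 1
    symm
    apply Finset.prod_subset (hPa a ha)
    intro p _ hp
    rw [Finsupp.notMem_support_iff.mp (by rwa [Nat.support_factorization]), zero_add]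
  have hcard1 : A.card ≤ D ^ 2 * A'.card := by
    calc A.card ≤ ∑ a ∈ A', ∏ p ∈ P, (a.factorization p + 1) ^ 2 := hc
      _ ≤ ∑ a ∈ A', D ^ 2 := Finset.sum_le_sum (fun a ha => by
          rw [hd a (hA'A ha)]
          exact Nat.pow_le_pow_left (hD a (hA'A ha)) 2)
      _ = D ^ 2 * A'.card := by rw [Finset.sum_const, smul_eq_mul, mul_comm]
  have hcard2 : A'.card ≤ ∑ j ∈ range (W + 1), φ j := by
    rw [Finset.card_eq_sum_card_fiberwise (f := fun a => a.primeFactors.card)
      (t := range (W + 1)) (fun a ha => by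
        have := hW a (hA'A ha)
        simp only [Finset.coe_range, Set.mem_Iio]
        omega)]
    refine Finset.sum_le_sum (fun j hj => ?_)
    set Aj := A'.filter (fun a => a.primeFactors.card = j) with hAj
    have hAjA : Aj ⊆ A := (Finset.filter_subset _ _).trans hA'A
    have hfreej : GcdFree r Aj := by
      rintro ⟨S, hS, hrest⟩
      exact hfree ⟨S, hS.trans hAjA, hrest⟩
    obtain ⟨hinj, hsun⟩ := sunFree_of_gcdFree r hr c Aj (fun a ha => hA a (hAjA ha)) (by
      intro a ha p hp
      have h1 : a ∈ A' := (Finset.mem_filter.mp ha).1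
      rcases (Finset.mem_filter.mp h1).2 p (hPa a (hA'A h1) hp) with h2 | h2
      · exact absurd h2 (Finsupp.mem_support_iff.mp (by rwa [Nat.support_factorization]))
      · exact h2) hfreej
    have h3 := hφ j (by have := mem_range.mp hj; omega) (Aj.image Nat.primeFactors) (by
      intro S hS
      obtain ⟨a, ha, rfl⟩ := Finset.mem_image.mp hS
      exact (Finset.mem_filter.mp ha).2) hsun
    rwa [Finset.card_image_of_injOn hinj] at h3
  exact hcard1.trans (Nat.mul_le_mul_left _ hcard2)

/-- sizes of `d(n)` and `ω(n)` for `n < 2 ^ m` -/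
lemma div_bounds (m s n : ℕ) (hs : 1 ≤ s) (hn : 0 < n) (hm : n < 2 ^ m) :
    n.divisors.card ≤ m ^ (2 ^ s) * 2 ^ (m / s) ∧ n.primeFactors.card ≤ 2 ^ s + m / s := by
  classical
  have hm1 : 1 ≤ m := by
    by_contra h
    have : m = 0 := by omega
    subst this
    simp at hm
    omega
  set Sm := n.primeFactors.filter (fun p => p < 2 ^ s) with hSm
  set La := n.primeFactors.filter (fun p => ¬ p < 2 ^ s) with hLa
  have hprod : ∏ p ∈ n.primeFactors, p ^ n.factorization p = n := by
    have := Nat.prod_factorization_pow_eq_self hn.ne'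
    rwa [Finsupp.prod, Nat.support_factorization] at this
  have hpr : ∀ p ∈ n.primeFactors, p.Prime := fun p hp => Nat.prime_of_mem_primeFactors hp
  have he1 : ∀ p ∈ n.primeFactors, 1 ≤ n.factorization p := by
    intro p hp
    exact Nat.one_le_iff_ne_zero.mpr
      (Finsupp.mem_support_iff.mp (by rwa [Nat.support_factorization]))
  have hem : ∀ p ∈ n.primeFactors, n.factorization p + 1 ≤ m := by
    intro p hp
    have h1 : p ^ n.factorization p ≤ n := Nat.ordProj_le p hn.ne'
    have h2 : 2 ^ n.factorization p ≤ p ^ n.factorization p :=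
      Nat.pow_le_pow_left (hpr p hp).two_le _
    have h3 : 2 ^ n.factorization p < 2 ^ m := lt_of_le_of_lt (h2.trans h1) hm
    exact (Nat.pow_lt_pow_iff_right (by norm_num)).mp h3
  set E := ∑ p ∈ La, n.factorization p with hE
  have hLprod : 2 ^ (s * E) ≤ n := by
    calc 2 ^ (s * E) = ∏ p ∈ La, (2 ^ s) ^ n.factorization p := by
          rw [Finset.prod_pow_eq_pow_sum, ← pow_mul]
      _ ≤ ∏ p ∈ La, p ^ n.factorization p := by
          refine Finset.prod_le_prod' (fun p hp => ?_)
          exact Nat.pow_le_pow_left (not_lt.mp (Finset.mem_filter.mp hp).2) _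
      _ ≤ ∏ p ∈ n.primeFactors, p ^ n.factorization p := by
          refine Finset.prod_le_prod_of_subset_of_one_le' (Finset.filter_subset _ _) ?_
          intro p hp _
          exact Nat.one_le_pow _ _ (hpr p hp).pos
      _ = n := hprod
  have hEm : E ≤ m / s := by
    rw [Nat.le_div_iff_mul_le (by omega)]
    have h1 : 2 ^ (s * E) < 2 ^ m := lt_of_le_of_lt hLprod hm
    have h2 := (Nat.pow_lt_pow_iff_right (a := 2) (by norm_num)).mp h1
    rw [mul_comm]
    exact h2.le
  have hSc : Sm.card ≤ 2 ^ s := by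
    calc Sm.card ≤ (range (2 ^ s)).card := by
          apply Finset.card_le_card
          intro p hp
          exact mem_range.mpr (Finset.mem_filter.mp hp).2
      _ = 2 ^ s := card_range _
  constructor
  · rw [Nat.card_divisors hn.ne', ← Finset.prod_filter_mul_prod_filter_not n.primeFactors
      (fun p => p < 2 ^ s)]
    apply Nat.mul_le_mul
    · calc ∏ p ∈ Sm, (n.factorization p + 1) ≤ ∏ p ∈ Sm, m :=
            Finset.prod_le_prod' (fun p hp => hem p (Finset.mem_filter.mp hp).1)
        _ = m ^ Sm.card := by rw [Finset.prod_const]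
        _ ≤ m ^ (2 ^ s) := Nat.pow_le_pow_right hm1 hSc
    · calc ∏ p ∈ La, (n.factorization p + 1) ≤ ∏ p ∈ La, 2 ^ n.factorization p :=
            Finset.prod_le_prod' (fun p _ => Nat.lt_two_pow_self)
        _ = 2 ^ E := by rw [Finset.prod_pow_eq_pow_sum]
        _ ≤ 2 ^ (m / s) := Nat.pow_le_pow_right (by norm_num) hEm
  · rw [← Finset.card_filter_add_card_filter_not (s := n.primeFactors) (fun p => p < 2 ^ s)]
    apply Nat.add_le_add hSc
    refine le_trans ?_ hEm
    rw [hE, Finset.card_eq_sum_ones]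
    exact Finset.sum_le_sum (fun p hp => he1 p (Finset.mem_filter.mp hp).1)

end Pool.Agent.U515.SF
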