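import Pool.Agent.U515.SF.Gcd

/-! Encoding families of sets by squarefree numbers. -/

namespace Pool.Agent.U515.SF

open Finset

/-- the number that encodes a set -/
noncomputable def enc (S : Finset ℕ) : ℕ := ∏ i ∈ S, Nat.nth Nat.Prime i

lemma q_inj : Function.Injective (Nat.nth Nat.Prime) :=
  Nat.nth_injective Nat.infinite_setOf_prime

lemma q_prime (i : ℕ) : (Nat.nth Nat.Prime i).Prime := Nat.prime_nth_prime i

lemma enc_primeFactors (S : Finset ℕ) : (enc S).primeFactors = S.image (Nat.nth Nat.Prime) := by
  have h : enc S = ∏ p ∈ S.image (Nat.nth Nat.Prime), p := by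
    rw [Finset.prod_image (fun x _ y _ h => q_inj h)]
    rfl
  rw [h]
  apply Nat.primeFactors_prod
  intro p hp
  obtain ⟨i, _, rfl⟩ := Finset.mem_image.mp hp
  exact q_prime i

lemma enc_pos (S : Finset ℕ) : 0 < enc S := Finset.prod_pos (fun i _ => (q_prime i).pos)

lemma enc_length (S : Finset ℕ) : (enc S).primeFactorsList.length = S.card := by
  classical
  rw [← ArithmeticFunction.cardFactors_apply]
  induction S using Finset.induction_on with
  | empty => simp [enc]
  | insert i S hi ih =>
    have h1 : enc (insert i S) = Nat.nth Nat.Prime i * enc S := by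
      unfold enc
      rw [Finset.prod_insert hi]
    rw [h1, ArithmeticFunction.cardFactors_mul (q_prime i).ne_zero (enc_pos S).ne', ih,
      ArithmeticFunction.cardFactors_apply_prime (q_prime i), Finset.card_insert_of_notMem hi]
    ring

lemma enc_inj : Function.Injective enc := by
  intro S S' h
  have h1 := congrArg Nat.primeFactors h
  rw [enc_primeFactors, enc_primeFactors] at h1
  exact Finset.image_injective q_inj h1

lemma gcdFree_of_sunFree (r : ℕ) (F : Finset (Finset ℕ)) (h : SunFree r F) :
    GcdFree r (F.image enc) := by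
  classical
  rintro ⟨S, hS, hSr, d, hd, hgcd, -⟩
  apply h
  refine ⟨F.filter (fun X => enc X ∈ S), Finset.filter_subset _ _, ?_,
    d.primeFactors.preimage (Nat.nth Nat.Prime) q_inj.injOn, ?_⟩
  · rw [← hSr, ← Finset.card_image_of_injective _ enc_inj]
    congr 1
    apply Finset.Subset.antisymm
    · intro a ha
      obtain ⟨X, hX, rfl⟩ := Finset.mem_image.mp ha
      exact (Finset.mem_filter.mp hX).2
    · intro a ha
      obtain ⟨X, hX, rfl⟩ := Finset.mem_image.mp (hS ha)
      exact Finset.mem_image.mpr ⟨X, Finset.mem_filter.mpr ⟨hX, ha⟩, rfl⟩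
  · intro X hX X' hX' hne
    have h1 := hgcd _ (Finset.mem_filter.mp hX).2 _ (Finset.mem_filter.mp hX').2
      (fun h => hne (enc_inj h))
    ext i
    rw [Finset.mem_preimage, ← h1, Nat.primeFactors_gcd (enc_pos X).ne' (enc_pos X').ne',
      Finset.mem_inter, Finset.mem_inter, enc_primeFactors, enc_primeFactors,
      q_inj.mem_finset_image, q_inj.mem_finset_image]

end Pool.Agent.U515.SF
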