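import Pool.Agent.U515.SF.Sun

/-! Choosing exponents: from gcd-sunflowers with fixed `Ω` to sunflowers of sets. -/

namespace Pool.Agent.U515.SF

open Finset

/-- one step of the choice -/
lemma exists_level (A : Finset ℕ) (w u : ℕ → ℕ) :
    ∃ e : ℕ, ∑ a ∈ A, w a ≤ ∑ a ∈ A.filter (fun a => u a = 0 ∨ u a = e), w a * 2 ^ u a := by
  classical
  by_contra hcon
  push Not at hcon
  set A₁ := A.filter (fun a => u a ≠ 0) with hA₁
  set T : ℕ := ∑ a ∈ A₁, w a with hT
  have hsplit : ∑ a ∈ A, w a = ∑ a ∈ A.filter (fun a => u a = 0), w a + T := by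
    rw [hT, hA₁, Finset.sum_filter_add_sum_filter_not]
  have hlev : ∀ e, 1 ≤ e → (∑ a ∈ A₁ with u a = e, w a) * 2 ^ e < T := by
    intro e he
    have h1 := hcon e
    have h2 : A.filter (fun a => u a = 0 ∨ u a = e) =
        A.filter (fun a => u a = 0) ∪ A₁.filter (fun a => u a = e) := by
      ext a
      simp only [hA₁, Finset.mem_filter, Finset.mem_union]
      constructor
      · rintro ⟨ha, h | h⟩
        · exact Or.inl ⟨ha, h⟩
        · exact Or.inr ⟨⟨ha, by omega⟩, h⟩
      · rintro (⟨ha, h⟩ | ⟨⟨ha, _⟩, h⟩)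
        · exact ⟨ha, Or.inl h⟩
        · exact ⟨ha, Or.inr h⟩
    have hd : Disjoint (A.filter (fun a => u a = 0)) (A₁.filter (fun a => u a = e)) := by
      rw [Finset.disjoint_left]
      intro a ha ha'
      have h3 := (Finset.mem_filter.mp ha).2
      have h4 := (Finset.mem_filter.mp ha').2
      omega
    rw [h2, Finset.sum_union hd, hsplit] at h1
    have h5 : ∑ a ∈ A.filter (fun a => u a = 0), w a * 2 ^ u a =
        ∑ a ∈ A.filter (fun a => u a = 0), w a := by
      refine Finset.sum_congr rfl (fun a ha => ?_)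
      rw [(Finset.mem_filter.mp ha).2, pow_zero, mul_one]
    have h6 : ∑ a ∈ A₁.filter (fun a => u a = e), w a * 2 ^ u a =
        (∑ a ∈ A₁ with u a = e, w a) * 2 ^ e := by
      rw [Finset.sum_mul]
      refine Finset.sum_congr rfl (fun a ha => ?_)
      rw [(Finset.mem_filter.mp ha).2]
    rw [h5, h6] at h1
    omega
  set N := A₁.sup u with hN
  have hfib : ∑ e ∈ Finset.Icc 1 N, ∑ a ∈ A₁ with u a = e, w a = T := by
    rw [hT]
    apply Finset.sum_fiberwise_of_maps_to
    intro a ha
    rw [Finset.mem_Icc]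
    refine ⟨?_, Finset.le_sup ha⟩
    have := (Finset.mem_filter.mp ha).2
    omega
  have hTpos : 0 < T := lt_of_le_of_lt (Nat.zero_le _) (hlev 1 le_rfl)
  have hgeo : ∀ n : ℕ, ∑ e ∈ Finset.Icc 1 n, ((1 : ℝ) / 2 ^ e) = 1 - 1 / 2 ^ n := by
    intro n
    induction n with
    | zero => simp
    | succ n ih =>
      rw [Finset.sum_Icc_succ_top (by omega), ih]
      have : (2 : ℝ) ^ n ≠ 0 := by positivity
      field_simp
      ring
  have hTr : (0 : ℝ) < (T : ℝ) := by exact_mod_cast hTpos
  have h7 : (T : ℝ) ≤ T * (1 - 1 / 2 ^ N) := by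
    calc (T : ℝ) = ((∑ e ∈ Finset.Icc 1 N, ∑ a ∈ A₁ with u a = e, w a : ℕ) : ℝ) := by rw [hfib]
      _ = ∑ e ∈ Finset.Icc 1 N, ((∑ a ∈ A₁ with u a = e, w a : ℕ) : ℝ) := by push_cast; rfl
      _ ≤ ∑ e ∈ Finset.Icc 1 N, (T : ℝ) * (1 / 2 ^ e) := by
          refine Finset.sum_le_sum (fun e he => ?_)
          have h8 := hlev e (Finset.mem_Icc.mp he).1
          have h9 : ((∑ a ∈ A₁ with u a = e, w a : ℕ) : ℝ) * 2 ^ e < T := by exact_mod_cast h8
          rw [mul_one_div, le_div_iff₀ (by positivity)]
          exact h9.le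
      _ = T * (1 - 1 / 2 ^ N) := by rw [← Finset.mul_sum, hgeo]
  have h10 : (0 : ℝ) < 1 / 2 ^ N := by positivity
  nlinarith

/-- choice of one exponent for every prime of a finite set -/
lemma exists_exponents (P A : Finset ℕ) (v : ℕ → ℕ → ℕ) :
    ∃ c : ℕ → ℕ, A.card ≤ ∑ a ∈ A.filter (fun a => ∀ p ∈ P, v a p = 0 ∨ v a p = c p),
      2 ^ (∑ p ∈ P, v a p) := by
  classical
  induction P using Finset.induction_on with
  | empty => exact ⟨fun _ => 0, by simp⟩
  | insert p P hp ih =>
    obtain ⟨c, hc⟩ := ih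
    obtain ⟨e, he⟩ := exists_level (A.filter (fun a => ∀ p ∈ P, v a p = 0 ∨ v a p = c p))
      (fun a => 2 ^ (∑ p ∈ P, v a p)) (fun a => v a p)
    refine ⟨Function.update c p e, hc.trans (he.trans (le_of_eq ?_))⟩
    rw [Finset.filter_filter]
    have hset : A.filter (fun a => (∀ q ∈ P, v a q = 0 ∨ v a q = c q) ∧ (v a p = 0 ∨ v a p = e)) =
        A.filter (fun a => ∀ q ∈ insert p P, v a q = 0 ∨ v a q = Function.update c p e q) := by
      apply Finset.filter_congr
      intro a _
      constructor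
      · rintro ⟨h1, h2⟩ q hq
        rcases Finset.mem_insert.mp hq with rfl | hq
        · rw [Function.update_self]
          exact h2
        · have hne : q ≠ p := fun h => hp (h ▸ hq)
          rw [Function.update_of_ne hne]
          exact h1 q hq
      · intro h
        refine ⟨fun q hq => ?_, ?_⟩
        · have hne : q ≠ p := fun h => hp (h ▸ hq)
          have := h q (Finset.mem_insert_of_mem hq)
          rwa [Function.update_of_ne hne] at this
        · have := h p (Finset.mem_insert_self p P)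
          rwa [Function.update_self] at this
    rw [hset]
    refine Finset.sum_congr rfl (fun a _ => ?_)
    rw [Finset.sum_insert hp, pow_add, mul_comm]

/-- `A` contains no gcd-sunflower with `r` elements (the condition of the problem, verbatim). -/
def GcdFree (r : ℕ) (A : Finset ℕ) : Prop :=
  ¬ ∃ S : Finset ℕ, S ⊆ A ∧ S.card = r ∧
      ∃ d : ℕ, 0 < d ∧
        (∀ a ∈ S, ∀ b ∈ S, a ≠ b → Nat.gcd a b = d) ∧
        (∀ a ∈ S, ∃ b : ℕ, a = d * b ∧ Nat.Coprime b d)

/-- numbers with prescribed exponents: the prime supports of a gcd-sunflower-free set are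
sunflower-free -/
lemma sunFree_of_gcdFree (r : ℕ) (hr : 2 ≤ r) (c : ℕ → ℕ) (A : Finset ℕ)
    (hpos : ∀ a ∈ A, 0 < a)
    (hc : ∀ a ∈ A, ∀ p ∈ a.primeFactors, a.factorization p = c p)
    (hfree : GcdFree r A) :
    Set.InjOn Nat.primeFactors (A : Set ℕ) ∧ SunFree r (A.image Nat.primeFactors) := by
  classical
  have hfac : ∀ a ∈ A, ∀ p, a.factorization p = if p ∈ a.primeFactors then c p else 0 := by
    intro a ha p
    split_ifs with h
    · exact hc a ha p h
    · exact Finsupp.notMem_support_iff.mp (by rwa [Nat.support_factorization])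
  have hinj : Set.InjOn Nat.primeFactors (A : Set ℕ) := by
    intro a ha b hb h
    apply Nat.eq_of_factorization_eq (hpos a ha).ne' (hpos b hb).ne'
    intro p
    rw [hfac a ha p, hfac b hb p, h]
  refine ⟨hinj, ?_⟩
  rintro ⟨T, hT, hTr, Y, hY⟩
  apply hfree
  set S := A.filter (fun a => a.primeFactors ∈ T) with hS
  have hSA : S ⊆ A := Finset.filter_subset _ _
  have himg : S.image Nat.primeFactors = T := by
    apply Finset.Subset.antisymm
    · intro X hX
      obtain ⟨a, ha, rfl⟩ := Finset.mem_image.mp hX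
      exact (Finset.mem_filter.mp ha).2
    · intro X hX
      obtain ⟨a, ha, rfl⟩ := Finset.mem_image.mp (hT hX)
      exact Finset.mem_image.mpr ⟨a, Finset.mem_filter.mpr ⟨ha, hX⟩, rfl⟩
  have hScard : S.card = r := by
    rw [← hTr, ← himg, Finset.card_image_of_injOn]
    exact hinj.mono (by exact_mod_cast hSA)
  have hSY : ∀ a ∈ S, Y ⊆ a.primeFactors := by
    intro a ha
    obtain ⟨b, hb, hab⟩ := Finset.exists_mem_ne (by omega : 1 < S.card) a
    have h1 : a.primeFactors ≠ b.primeFactors := fun h =>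
      hab (hinj (hSA hb) (hSA ha) h.symm)
    rw [← hY _ (Finset.mem_filter.mp ha).2 _ (Finset.mem_filter.mp hb).2 h1]
    exact Finset.inter_subset_left
  have hYprime : ∀ p ∈ Y, p.Prime := by
    intro p hp
    have hne : S.Nonempty := by
      rw [← Finset.card_pos]
      omega
    obtain ⟨a, ha⟩ := hne
    exact Nat.prime_of_mem_primeFactors (hSY a ha hp)
  set d : ℕ := ∏ p ∈ Y, p ^ c p with hd
  have hdpos : 0 < d := Finset.prod_pos (fun p hp => pow_pos (hYprime p hp).pos _)
  have hdfac : ∀ q, d.factorization q = if q ∈ Y then c q else 0 := by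
    intro q
    have h1 : d.factorization = ∑ p ∈ Y, Finsupp.single p (c p) := by
      rw [hd, Nat.factorization_prod (fun p hp => (pow_pos (hYprime p hp).pos _).ne')]
      refine Finset.sum_congr rfl (fun p hp => ?_)
      rw [(hYprime p hp).factorization_pow]
    rw [h1, Finsupp.finset_sum_apply]
    simp only [Finsupp.single_apply]
    rw [Finset.sum_ite_eq' Y q]
  refine ⟨S, hSA, hScard, d, hdpos, ?_, ?_⟩
  · intro a ha b hb hab
    have ha0 := (hpos a (hSA ha)).ne'
    have hb0 := (hpos b (hSA hb)).ne'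
    apply Nat.eq_of_factorization_eq (Nat.gcd_ne_zero_left ha0) hdpos.ne'
    intro p
    rw [Nat.factorization_gcd ha0 hb0, Finsupp.inf_apply, hfac a (hSA ha) p, hfac b (hSA hb) p,
      hdfac p]
    have h1 : a.primeFactors ≠ b.primeFactors := fun h => hab (hinj (hSA ha) (hSA hb) h)
    have h2 := hY _ (Finset.mem_filter.mp ha).2 _ (Finset.mem_filter.mp hb).2 h1
    by_cases h3 : p ∈ a.primeFactors
    · by_cases h4 : p ∈ b.primeFactors
      · have h5 : p ∈ Y := by
          rw [← h2]
          exact Finset.mem_inter.mpr ⟨h3, h4⟩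
        rw [if_pos h3, if_pos h4, if_pos h5, min_self]
      · have h5 : p ∉ Y := by
          rw [← h2]
          exact fun h => h4 (Finset.mem_inter.mp h).2
        rw [if_neg h4, if_neg h5]
        simp
    · have h5 : p ∉ Y := by
        rw [← h2]
        exact fun h => h3 (Finset.mem_inter.mp h).1
      rw [if_neg h3, if_neg h5]
      simp
  · intro a ha
    have ha0 := (hpos a (hSA ha)).ne'
    have hdvd : d ∣ a := by
      rw [← Nat.factorization_le_iff_dvd hdpos.ne' ha0]
      intro p
      rw [hdfac p, hfac a (hSA ha) p]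
      by_cases h5 : p ∈ Y
      · rw [if_pos h5, if_pos (hSY a ha h5)]
      · rw [if_neg h5]
        exact Nat.zero_le _
    obtain ⟨b, hb⟩ := hdvd
    refine ⟨b, hb, ?_⟩
    have hb0 : b ≠ 0 := by
      rintro rfl
      rw [mul_zero] at hb
      exact ha0 hb
    apply Nat.Coprime.symm
    rw [hd]
    apply Nat.Coprime.prod_left
    intro p hp
    apply Nat.Coprime.pow_left
    rw [(hYprime p hp).coprime_iff_not_dvd]
    intro hpb
    have h6 : 1 ≤ b.factorization p := (hYprime p hp).dvd_iff_one_le_factorization hb0 |>.mp hpb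
    have h7 : a.factorization p = d.factorization p + b.factorization p := by
      rw [hb, Nat.factorization_mul hdpos.ne' hb0, Finsupp.add_apply]
    rw [hfac a (hSA ha) p, hdfac p, if_pos (hSY a ha hp), if_pos hp] at h7
    omega

/-- The transfer: with `r ≥ 2`, a gcd-sunflower-free set of numbers with `Ω = k` has at most
`2 ^ k * ∑ j ≤ k, φ j` elements, if sunflower-free families of `j`-sets have at most `φ j`. -/
theorem transfer (r : ℕ) (hr : 2 ≤ r) (k : ℕ) (φ : ℕ → ℕ)
    (hφ : ∀ j ≤ k, ∀ F : Finset (Finset ℕ), (∀ S ∈ F, S.card = j) → SunFree r F → F.card ≤ φ j)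
    (A : Finset ℕ) (hA : ∀ a ∈ A, 0 < a ∧ a.primeFactorsList.length = k) (hfree : GcdFree r A) :
    A.card ≤ 2 ^ k * ∑ j ∈ range (k + 1), φ j := by
  classical
  set P : Finset ℕ := A.biUnion Nat.primeFactors with hP
  have hPa : ∀ a ∈ A, a.primeFactors ⊆ P := fun a ha => Finset.subset_biUnion_of_mem _ ha
  obtain ⟨c, hc⟩ := exists_exponents P A (fun a p => a.factorization p)
  set A' := A.filter (fun a => ∀ p ∈ P, a.factorization p = 0 ∨ a.factorization p = c p) with hA'
  have hA'A : A' ⊆ A := Finset.filter_subset _ _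
  have hΩ : ∀ a ∈ A, ∑ p ∈ P, a.factorization p = k := by
    intro a ha
    have h1 : ∑ p ∈ a.primeFactors, a.factorization p = ∑ p ∈ P, a.factorization p := by
      apply Finset.sum_subset (hPa a ha)
      intro p _ hp
      exact Finsupp.notMem_support_iff.mp (by rwa [Nat.support_factorization])
    rw [← h1, ← (hA a ha).2]
    have h2 := ArithmeticFunction.cardFactors_eq_sum_factorization (n := a)
    rw [ArithmeticFunction.cardFactors_apply] at h2
    rw [h2, Finsupp.sum, Nat.support_factorization]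
  have hcard1 : A.card ≤ 2 ^ k * A'.card := by
    calc A.card ≤ ∑ a ∈ A', 2 ^ (∑ p ∈ P, a.factorization p) := hc
      _ = ∑ a ∈ A', 2 ^ k := Finset.sum_congr rfl (fun a ha => by rw [hΩ a (hA'A ha)])
      _ = 2 ^ k * A'.card := by rw [Finset.sum_const, smul_eq_mul, mul_comm]
  have hω : ∀ a ∈ A, a.primeFactors.card ≤ k := by
    intro a ha
    rw [← (hA a ha).2]
    exact List.toFinset_card_le _
  have hcard2 : A'.card ≤ ∑ j ∈ range (k + 1), φ j := by
    rw [Finset.card_eq_sum_card_fiberwise (f := fun a => a.primeFactors.card)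
      (t := range (k + 1)) (fun a ha => by
        have := hω a (hA'A ha)
        simp only [Finset.coe_range, Set.mem_Iio]
        omega)]
    refine Finset.sum_le_sum (fun j hj => ?_)
    set Aj := A'.filter (fun a => a.primeFactors.card = j) with hAj
    have hAjA : Aj ⊆ A := (Finset.filter_subset _ _).trans hA'A
    have hfreej : GcdFree r Aj := by
      rintro ⟨S, hS, hrest⟩
      exact hfree ⟨S, hS.trans hAjA, hrest⟩
    obtain ⟨hinj, hsun⟩ := sunFree_of_gcdFree r hr c Aj (fun a ha => (hA a (hAjA ha)).1) (by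
      intro a ha p hp
      have h1 : a ∈ A' := (Finset.mem_filter.mp ha).1
      rcases (Finset.mem_filter.mp h1).2 p (hPa a (hA'A h1) hp) with h2 | h2
      · exact absurd h2 (Finsupp.mem_support_iff.mp (by rwa [Nat.support_factorization]))
      · exact h2) hfreej
    have h3 := hφ j (by have := mem_range.mp hj; omega) (Aj.image Nat.primeFactors) (by
      intro S hS
      obtain ⟨a, ha, rfl⟩ := Finset.mem_image.mp hS
      exact (Finset.mem_filter.mp ha).2) hsun
    rwa [Finset.card_image_of_injOn hinj] at h3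
  exact hcard1.trans (Nat.mul_le_mul_left _ hcard2)

end Pool.Agent.U515.SF
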