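import Pool.Agent.U515.SF.Div

/-! The bound `N ^ (C log log log N / log log N)`. -/

namespace Pool.Agent.U515.SF

open Finset

lemma aux_pow (s : ℕ) : (2 * s + 1) * (2 * s + 2) ≤ 16 * 2 ^ s := by
  rcases Nat.lt_or_ge s 4 with h | h
  · interval_cases s <;> norm_num
  · induction s, h using Nat.le_induction with
    | base => norm_num
    | succ s hs ih =>
      rw [pow_succ]
      nlinarith

theorem nat_bound (r : ℕ) (hr : 3 ≤ r) (m : ℕ) (hm : 4 ≤ m) (A : Finset ℕ)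
    (hA : ∀ a ∈ A, 0 < a ∧ a < 2 ^ m) (hfree : GcdFree r A) :
    ∃ E : ℕ, A.card ≤ 2 ^ E ∧ E * Nat.log 2 m ≤
      19 * m * ((Nat.log 2 (64 * (r * (Nat.log 4 r + 1))) + 1) + Nat.log 2 (Nat.log 2 m) + 5) := by
  obtain ⟨lam, hlam⟩ : ∃ l, l = Nat.log 2 m := ⟨_, rfl⟩
  obtain ⟨mu, hmu⟩ : ∃ u, u = Nat.log 2 (Nat.log 2 m) := ⟨_, rfl⟩
  obtain ⟨s, hs⟩ : ∃ s, s = lam / 2 := ⟨_, rfl⟩
  obtain ⟨K, hK⟩ : ∃ K, K = 64 * (r * (Nat.log 4 r + 1)) := ⟨_, rfl⟩
  obtain ⟨kap, hkap⟩ : ∃ k, k = Nat.log 2 K + 1 := ⟨_, rfl⟩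
  obtain ⟨W, hW⟩ : ∃ W, W = 2 ^ s + m / s := ⟨_, rfl⟩
  rw [← hK, ← hkap, ← hmu, ← hlam]
  have hlam2 : 2 ≤ lam := by
    rw [hlam]
    exact (Nat.le_log_iff_pow_le (by norm_num) (by omega)).mpr (by norm_num; omega)
  have hs1 : 1 ≤ s := by omega
  have hls : lam ≤ 2 * s + 1 := by omega
  have hm2 : 2 ^ lam ≤ m := by
    rw [hlam]
    exact Nat.pow_log_le_self 2 (by omega)
  have hss : 2 ^ s * 2 ^ s ≤ m := by
    rw [← pow_add]
    exact (Nat.pow_le_pow_right (by norm_num) (by omega)).trans hm2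
  have hmlam : m < 2 ^ (lam + 1) := by
    rw [hlam]
    exact Nat.lt_pow_succ_log_self (by norm_num) m
  have hsm : 2 ^ s ≤ m := by
    have : 1 ≤ 2 ^ s := Nat.one_le_two_pow
    nlinarith
  have hms : m / s ≤ m := Nat.div_le_self m s
  have hW2 : W ≤ 2 * m := by omega
  have hWlog : Nat.log 2 W + 1 ≤ lam + 2 := by
    have h1 : W < 2 ^ (lam + 2) := by
      have : 2 ^ (lam + 2) = 2 * 2 ^ (lam + 1) := by ring
      omega
    have hWpos : 0 < W := by
      rw [hW]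
      exact Nat.add_pos_left (by positivity) _
    have h2 := Nat.log_lt_of_lt_pow (b := 2) (x := lam + 2) (y := W) hWpos.ne' h1
    omega
  have hlmu : lam + 2 ≤ 2 ^ (mu + 2) := by
    have h1 : lam < 2 ^ (mu + 1) := by
      rw [hmu, ← hlam]
      exact Nat.lt_pow_succ_log_self (by norm_num) lam
    have h2 : 2 ^ (mu + 2) = 2 * 2 ^ (mu + 1) := by ring
    omega
  have hKk : K ≤ 2 ^ kap := by
    rw [hkap]
    exact (Nat.lt_pow_succ_log_self (by norm_num) K).le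
  have hK1 : 1 ≤ K := by
    rw [hK]
    have : 0 < r * (Nat.log 4 r + 1) := by positivity
    omega
  have h1 := transfer2 r (by omega) (m ^ (2 ^ s) * 2 ^ (m / s)) W
    (fun _ => (K * (Nat.log 2 W + 1)) ^ W) (by
      intro j hj F hF hFf
      refine (sunflower_bound r j (by omega) F hF hFf).trans ?_
      calc (64 * (r * (Nat.log 4 r + 1) * (Nat.log 2 j + 1))) ^ j
          = (K * (Nat.log 2 j + 1)) ^ j := by
            rw [hK]
            congr 1
            ring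
        _ ≤ (K * (Nat.log 2 W + 1)) ^ j := by
            apply Nat.pow_le_pow_left
            have := Nat.log_mono_right (b := 2) hj
            gcongr
        _ ≤ (K * (Nat.log 2 W + 1)) ^ W := by
            apply Nat.pow_le_pow_right _ hj
            exact Nat.mul_pos hK1 (by omega)) A (fun a ha => (hA a ha).1)
    (fun a ha => (div_bounds m s a hs1 (hA a ha).1 (hA a ha).2).1)
    (fun a ha => by
      rw [hW]
      exact (div_bounds m s a hs1 (hA a ha).1 (hA a ha).2).2) hfree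
  refine ⟨2 * ((lam + 1) * 2 ^ s) + 2 * (m / s) + W + (kap + mu + 2) * W, ?_, ?_⟩
  · have h2 : m ^ (2 ^ s) ≤ 2 ^ ((lam + 1) * 2 ^ s) := by
      rw [pow_mul]
      exact Nat.pow_le_pow_left hmlam.le _
    have h3 : K * (Nat.log 2 W + 1) ≤ 2 ^ (kap + (mu + 2)) := by
      rw [pow_add 2 kap]
      exact Nat.mul_le_mul hKk (hWlog.trans hlmu)
    calc A.card ≤ (m ^ (2 ^ s) * 2 ^ (m / s)) ^ 2 *
          ∑ j ∈ range (W + 1), (K * (Nat.log 2 W + 1)) ^ W := h1
      _ = (m ^ (2 ^ s) * 2 ^ (m / s)) ^ 2 * ((W + 1) * (K * (Nat.log 2 W + 1)) ^ W) := by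
          rw [Finset.sum_const, card_range, smul_eq_mul]
      _ ≤ (2 ^ ((lam + 1) * 2 ^ s) * 2 ^ (m / s)) ^ 2 *
          (2 ^ W * (2 ^ (kap + (mu + 2))) ^ W) := by
          gcongr
          exact Nat.lt_two_pow_self
      _ = 2 ^ (2 * ((lam + 1) * 2 ^ s) + 2 * (m / s) + W + (kap + mu + 2) * W) := by
          rw [← pow_add, ← pow_mul, ← pow_mul, ← pow_add, ← pow_add]
          congr 1
          ring
  · have e1 : ((lam + 1) * 2 ^ s) * lam ≤ 16 * m := by
      calc ((lam + 1) * 2 ^ s) * lam ≤ ((2 * s + 1 + 1) * 2 ^ s) * (2 * s + 1) := by gcongr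
        _ = ((2 * s + 1) * (2 * s + 2)) * 2 ^ s := by ring
        _ ≤ (16 * 2 ^ s) * 2 ^ s := Nat.mul_le_mul_right _ (aux_pow s)
        _ = 16 * (2 ^ s * 2 ^ s) := by ring
        _ ≤ 16 * m := Nat.mul_le_mul_left _ hss
    have e2 : (m / s) * lam ≤ 3 * m := by
      calc (m / s) * lam ≤ (m / s) * (3 * s) := Nat.mul_le_mul_left _ (by omega)
        _ = 3 * (m / s * s) := by ring
        _ ≤ 3 * m := Nat.mul_le_mul_left _ (Nat.div_mul_le_self m s)
    have e3 : 2 ^ s * lam ≤ 16 * m := by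
      refine le_trans ?_ e1
      have h0 : 2 ^ s * lam ≤ (lam + 1) * (2 ^ s * lam) := Nat.le_mul_of_pos_left _ (by omega)
      calc 2 ^ s * lam ≤ (lam + 1) * (2 ^ s * lam) := h0
        _ = _ := by ring
    have e4 : W * lam ≤ 19 * m := by
      rw [hW, Nat.add_mul]
      omega
    calc (2 * ((lam + 1) * 2 ^ s) + 2 * (m / s) + W + (kap + mu + 2) * W) * lam
        = 2 * (((lam + 1) * 2 ^ s) * lam) + 2 * ((m / s) * lam) + W * lam +
          (kap + mu + 2) * (W * lam) := by ring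
      _ ≤ 2 * (16 * m) + 2 * (3 * m) + 19 * m + (kap + mu + 2) * (19 * m) := by gcongr
      _ ≤ 19 * m * (kap + mu + 5) := by nlinarith

open Real in
theorem real_bound (r : ℕ) (hr : 3 ≤ r) : ∃ C : ℝ, 0 < C ∧ ∀ N : ℕ, exp (exp (exp 1)) ≤ N →
    ∀ A : Finset ℕ, (∀ a ∈ A, 0 < a ∧ a ≤ N) → GcdFree r A →
      (A.card : ℝ) ≤ (N : ℝ) ^ (C * log (log (log N)) / log (log N)) := by
  obtain ⟨kap, hkap⟩ : ∃ k, k = Nat.log 2 (64 * (r * (Nat.log 4 r + 1))) + 1 := ⟨_, rfl⟩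
  refine ⟨114 * (kap + 11), by positivity, ?_⟩
  intro N hN A hA hfree
  have he1 : (2 : ℝ) ≤ exp 1 := by
    have := Real.add_one_le_exp (1 : ℝ)
    linarith
  have hee : (4 : ℝ) ≤ exp (exp 1) := by
    calc (4 : ℝ) = 2 * 2 := by norm_num
      _ ≤ exp 1 * exp 1 := by gcongr
      _ = exp 2 := by rw [← Real.exp_add]; norm_num
      _ ≤ exp (exp 1) := Real.exp_le_exp.mpr he1
  have hNpos : (0 : ℝ) < N := lt_of_lt_of_le (Real.exp_pos _) hN
  set l1 := log (N : ℝ) with hl1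
  have h1 : exp (exp 1) ≤ l1 := by
    rw [hl1, Real.le_log_iff_exp_le hNpos]
    exact hN
  have hl1pos : 0 < l1 := by linarith
  set l2 := log l1 with hl2
  have h2 : exp 1 ≤ l2 := by
    rw [hl2, Real.le_log_iff_exp_le hl1pos]
    exact h1
  have hl2pos : 0 < l2 := by linarith
  set l3 := log l2 with hl3
  have h3 : 1 ≤ l3 := by
    rw [hl3, Real.le_log_iff_exp_le hl2pos]
    exact h2
  have hlog2a : (1 / 2 : ℝ) ≤ log 2 := by
    have := Real.log_two_gt_d9
    linarith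
  have hlog2b : log 2 ≤ 1 := by
    have := Real.log_two_lt_d9
    linarith
  have hN0 : N ≠ 0 := by
    rintro rfl
    simp at hNpos
  obtain ⟨m, hm⟩ : ∃ m, m = Nat.log 2 N + 1 := ⟨_, rfl⟩
  have hNm : N < 2 ^ m := by
    rw [hm]
    exact Nat.lt_pow_succ_log_self (by norm_num) N
  have hmN : 2 ^ (m - 1) ≤ N := by
    rw [hm, Nat.add_sub_cancel]
    exact Nat.pow_log_le_self 2 hN0
  have hml1 : l1 ≤ m := by
    have h4 : (N : ℝ) ≤ (2 : ℝ) ^ m := by exact_mod_cast hNm.le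
    have h5 : l1 ≤ m * log 2 := by
      rw [hl1, ← Real.log_pow]
      exact Real.log_le_log hNpos h4
    have h6 : (m : ℝ) * log 2 ≤ m * 1 := mul_le_mul_of_nonneg_left hlog2b (Nat.cast_nonneg m)
    linarith
  have hm3 : (m : ℝ) ≤ 3 * l1 := by
    have h4 : ((2 : ℝ)) ^ (m - 1) ≤ (N : ℝ) := by exact_mod_cast hmN
    have h5 : ((m - 1 : ℕ) : ℝ) * log 2 ≤ l1 := by
      rw [hl1, ← Real.log_pow]
      exact Real.log_le_log (by positivity) h4
    have h6 : ((m - 1 : ℕ) : ℝ) * (1 / 2) ≤ ((m - 1 : ℕ) : ℝ) * log 2 :=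
      mul_le_mul_of_nonneg_left hlog2a (Nat.cast_nonneg _)
    have h7 : ((m - 1 : ℕ) : ℝ) = (m : ℝ) - 1 := by
      rw [Nat.cast_sub (by omega)]
      simp
    rw [h7] at h5 h6
    linarith
  have hm4 : 4 ≤ m := by
    have : (4 : ℝ) ≤ (m : ℝ) := by linarith
    exact_mod_cast this
  obtain ⟨E, hE1, hE2⟩ := nat_bound r hr m hm4 A
    (fun a ha => ⟨(hA a ha).1, lt_of_le_of_lt (hA a ha).2 hNm⟩) hfree
  rw [← hkap] at hE2
  set lam := Nat.log 2 m with hlam
  set mu := Nat.log 2 lam with hmu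
  have hmpos : (0 : ℝ) < m := by linarith
  have hlogm : l2 ≤ log m := by
    rw [hl2]
    exact Real.log_le_log hl1pos hml1
  have hlogm2 : log m ≤ 2 * l2 := by
    have h4 : log m ≤ log (3 * l1) := Real.log_le_log hmpos hm3
    rw [Real.log_mul (by norm_num) hl1pos.ne'] at h4
    have h5 : log (3 : ℝ) ≤ 2 := by
      have := Real.log_le_sub_one_of_pos (x := (3 : ℝ)) (by norm_num)
      linarith
    linarith
  have hlam1 : l2 / 2 ≤ lam := by
    have h4 : (m : ℝ) ≤ (2 : ℝ) ^ (lam + 1) := by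
      have := (Nat.lt_pow_succ_log_self (b := 2) (by norm_num) m).le
      exact_mod_cast this
    have h5 : log m ≤ ((lam + 1 : ℕ) : ℝ) * log 2 := by
      rw [← Real.log_pow]
      exact Real.log_le_log hmpos h4
    have h6 : ((lam + 1 : ℕ) : ℝ) * log 2 ≤ ((lam + 1 : ℕ) : ℝ) * 1 :=
      mul_le_mul_of_nonneg_left hlog2b (Nat.cast_nonneg _)
    push_cast at h5 h6
    linarith
  have hlampos : (0 : ℝ) < lam := by linarith
  have hlam0 : lam ≠ 0 := by
    intro h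
    rw [h] at hlampos
    simp at hlampos
  have hlam2 : (lam : ℝ) ≤ 4 * l2 := by
    have h4 : ((2 : ℝ)) ^ lam ≤ (m : ℝ) := by
      have := Nat.pow_log_le_self 2 (x := m) (by omega)
      exact_mod_cast this
    have h5 : (lam : ℝ) * log 2 ≤ log m := by
      rw [← Real.log_pow]
      exact Real.log_le_log (by positivity) h4
    have h6 : (lam : ℝ) * (1 / 2) ≤ lam * log 2 := mul_le_mul_of_nonneg_left hlog2a hlampos.le
    linarith
  have hmu2 : (mu : ℝ) ≤ 6 * l3 := by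
    have h4 : ((2 : ℝ)) ^ mu ≤ (lam : ℝ) := by
      have := Nat.pow_log_le_self 2 (x := lam) hlam0
      exact_mod_cast this
    have h5 : (mu : ℝ) * log 2 ≤ log lam := by
      rw [← Real.log_pow]
      exact Real.log_le_log (by positivity) h4
    have h6 : (mu : ℝ) * (1 / 2) ≤ mu * log 2 :=
      mul_le_mul_of_nonneg_left hlog2a (Nat.cast_nonneg _)
    have h7 : log (lam : ℝ) ≤ log (4 * l2) := Real.log_le_log hlampos hlam2
    rw [Real.log_mul (by norm_num) hl2pos.ne'] at h7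
    have h8 : log (4 : ℝ) = 2 * log 2 := by
      rw [show (4 : ℝ) = 2 ^ 2 by norm_num, Real.log_pow]
      norm_num
    linarith
  have hEr : (E : ℝ) * lam ≤ 19 * m * (kap + mu + 5) := by exact_mod_cast hE2
  have hEl : (E : ℝ) * (l2 / 2) ≤ 57 * l1 * ((kap + 11) * l3) := by
    have hk0 : (0 : ℝ) ≤ kap := Nat.cast_nonneg _
    calc (E : ℝ) * (l2 / 2) ≤ E * lam := mul_le_mul_of_nonneg_left hlam1 (Nat.cast_nonneg _)
      _ ≤ 19 * m * (kap + mu + 5) := hEr
      _ ≤ 19 * (3 * l1) * (kap + 6 * l3 + 5) := by gcongr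
      _ ≤ 19 * (3 * l1) * ((kap + 11) * l3) := by
          gcongr
          nlinarith
      _ = 57 * l1 * ((kap + 11) * l3) := by ring
  have hfin : (E : ℝ) ≤ l1 * (114 * (kap + 11) * l3 / l2) := by
    rw [← mul_div_assoc, le_div_iff₀ hl2pos]
    linarith
  have hElog : (E : ℝ) * log 2 ≤ E := by
    have := mul_le_mul_of_nonneg_left hlog2b (Nat.cast_nonneg (α := ℝ) E)
    linarith
  calc (A.card : ℝ) ≤ (2 : ℝ) ^ E := by exact_mod_cast hE1
    _ = exp (E * log 2) := by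
        rw [mul_comm, Real.exp_mul, Real.exp_log (by norm_num), Real.rpow_natCast]
    _ ≤ exp (l1 * (114 * (kap + 11) * l3 / l2)) := Real.exp_le_exp.mpr (hElog.trans hfin)
    _ = (N : ℝ) ^ (114 * (kap + 11) * l3 / l2) := by
        rw [Real.rpow_def_of_pos hNpos]

end Pool.Agent.U515.SF
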