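import Pool.Agent.H560R2.Spread2

/-! The sunflower bound `(64 r B J) ^ l` (`r < 4 ^ B`, `l < 2 ^ J`) for families of `l`-sets, from the
robust sunflower lemma. -/

namespace Pool.Agent.U515.SF

open Finset

set_option linter.unusedSectionVars false

lemma card_zero_le {B J Q : ℕ} [NeZero Q] (b : Fin B) (j : Fin J) :
    ((univ : Finset (Fin B → Fin J → Fin Q)).filter (fun x => x b j = 0)).card * Q ≤
      Fintype.card (Fin B → Fin J → Fin Q) := by
  classical
  have h1 : (((univ : Finset (Fin B → Fin J → Fin Q)).filter (fun x => x b j = 0)) ×ˢ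
      (univ : Finset (Fin Q))).card ≤ (univ : Finset (Fin B → Fin J → Fin Q)).card := by
    apply Finset.card_le_card_of_injOn
      (fun p => fun b' j' => if b' = b ∧ j' = j then p.2 else p.1 b' j')
    · intro p _
      exact mem_univ _
    · intro p hp p' hp' h
      have hp0 : p.1 b j = 0 := by
        have := (Finset.mem_product.mp hp).1
        exact (Finset.mem_filter.mp this).2
      have hp0' : p'.1 b j = 0 := by
        have := (Finset.mem_product.mp hp').1
        exact (Finset.mem_filter.mp this).2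
      have key : ∀ b' j', (if b' = b ∧ j' = j then p.2 else p.1 b' j') =
          (if b' = b ∧ j' = j then p'.2 else p'.1 b' j') := fun b' j' =>
        congrFun (congrFun h b') j'
      have h2 : p.2 = p'.2 := by
        have := key b j
        simpa using this
      have h3 : p.1 = p'.1 := by
        funext b' j'
        by_cases hc : b' = b ∧ j' = j
        · obtain ⟨rfl, rfl⟩ := hc
          rw [hp0, hp0']
        · have := key b' j'
          simpa [hc] using this
      exact Prod.ext h3 h2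
  rw [Finset.card_product] at h1
  simpa using h1

/-- the set of points with a zero coordinate -/
def X0 (B J Q : ℕ) [NeZero Q] : Finset (Fin B → Fin J → Fin Q) :=
  univ.filter (fun x => ∃ b j, x b j = 0)

lemma mem_X0 {B J Q : ℕ} [NeZero Q] (x : Fin B → Fin J → Fin Q) :
    x ∈ X0 B J Q ↔ ∃ b j, x b j = 0 := by
  simp [X0]

lemma card_X0_le (r B J Q : ℕ) [NeZero Q] (hQ : r * B * J ≤ Q) :
    r * (X0 B J Q).card ≤ Fintype.card (Fin B → Fin J → Fin Q) := by
  classical
  have hQ0 : 0 < Q := Nat.pos_of_ne_zero (NeZero.ne Q)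
  have h1 : (X0 B J Q).card ≤ ∑ b : Fin B, ∑ j : Fin J,
      ((univ : Finset (Fin B → Fin J → Fin Q)).filter (fun x => x b j = 0)).card := by
    have hsub : X0 B J Q ⊆ (univ : Finset (Fin B)).biUnion (fun b =>
        (univ : Finset (Fin J)).biUnion (fun j =>
          (univ : Finset (Fin B → Fin J → Fin Q)).filter (fun x => x b j = 0))) := by
      intro x hx
      obtain ⟨b, j, h⟩ := (mem_X0 x).mp hx
      simp only [Finset.mem_biUnion, Finset.mem_univ, true_and, Finset.mem_filter]
      exact ⟨b, j, h⟩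
    refine (Finset.card_le_card hsub).trans (Finset.card_biUnion_le.trans ?_)
    exact Finset.sum_le_sum (fun b _ => Finset.card_biUnion_le)
  have h2 : (∑ b : Fin B, ∑ j : Fin J,
      ((univ : Finset (Fin B → Fin J → Fin Q)).filter (fun x => x b j = 0)).card) * Q ≤
      B * J * Fintype.card (Fin B → Fin J → Fin Q) := by
    rw [Finset.sum_mul]
    calc ∑ b : Fin B, (∑ j : Fin J,
          ((univ : Finset (Fin B → Fin J → Fin Q)).filter (fun x => x b j = 0)).card) * Q
        ≤ ∑ b : Fin B, J * Fintype.card (Fin B → Fin J → Fin Q) := by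
          refine Finset.sum_le_sum (fun b _ => ?_)
          rw [Finset.sum_mul]
          calc ∑ j : Fin J,
              ((univ : Finset (Fin B → Fin J → Fin Q)).filter (fun x => x b j = 0)).card * Q
              ≤ ∑ j : Fin J, Fintype.card (Fin B → Fin J → Fin Q) :=
                Finset.sum_le_sum (fun j _ => card_zero_le b j)
            _ = J * Fintype.card (Fin B → Fin J → Fin Q) := by
                rw [Finset.sum_const, Finset.card_univ, Fintype.card_fin, smul_eq_mul]
      _ = B * J * Fintype.card (Fin B → Fin J → Fin Q) := by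
          rw [Finset.sum_const, Finset.card_univ, Fintype.card_fin, smul_eq_mul]
          ring
  have h3 : r * (X0 B J Q).card * Q ≤ Fintype.card (Fin B → Fin J → Fin Q) * Q := by
    calc r * (X0 B J Q).card * Q = r * ((X0 B J Q).card * Q) := by ring
      _ ≤ r * (B * J * Fintype.card (Fin B → Fin J → Fin Q)) :=
          Nat.mul_le_mul_left _ ((Nat.mul_le_mul_right _ h1).trans h2)
      _ = (r * B * J) * Fintype.card (Fin B → Fin J → Fin Q) := by ring
      _ ≤ Q * Fintype.card (Fin B → Fin J → Fin Q) := Nat.mul_le_mul_right _ hQ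
      _ = _ := by ring
  exact Nat.le_of_mul_le_mul_right h3 hQ0

/-- permutations that move a small set into disjoint positions -/
lemma disjoint_perms {X : Type*} [Fintype X] [DecidableEq X] (S : Finset X) (r : ℕ)
    (h : r * S.card ≤ Fintype.card X) :
    ∃ σ : Fin r → Equiv.Perm X, ∀ x, ∀ i j, σ i x ∈ S → σ j x ∈ S → i = j := by
  classical
  have hc : Fintype.card (Fin r × {x // x ∈ S}) ≤ Fintype.card X := by
    rw [Fintype.card_prod, Fintype.card_fin, Fintype.card_coe]
    exact h
  obtain ⟨g⟩ := Function.Embedding.nonempty_of_card_le hc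
  have hinj : ∀ i : Fin r, Function.Injective (fun y : {x // x ∈ S} => g (i, y)) := by
    intro i y y' hy
    have := g.injective hy
    exact (Prod.mk.inj this).2
  let e : ∀ i : Fin r, {x // x ∈ Set.range (fun y : {x // x ∈ S} => g (i, y))} ≃ {x // x ∈ S} :=
    fun i => (Equiv.ofInjective _ (hinj i)).symm
  have hkey : ∀ i x, (e i).extendSubtype x ∈ S →
      x ∈ Set.range (fun y : {x // x ∈ S} => g (i, y)) := by
    intro i x hx
    by_contra hn
    exact (e i).extendSubtype_not_mem x hn hx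
  refine ⟨fun i => (e i).extendSubtype, ?_⟩
  intro x i j hi hj
  obtain ⟨y, hy⟩ := hkey i x hi
  obtain ⟨y', hy'⟩ := hkey j x hj
  have : g (i, y) = g (j, y') := by
    simp only at hy hy'
    rw [hy, hy']
  exact (Prod.mk.inj (g.injective this)).1

theorem sunflower_fintype {ι : Type*} [Fintype ι] [DecidableEq ι] (r B J l : ℕ) (hr : 1 ≤ r)
    (hB : r < 4 ^ B) (hB1 : 1 ≤ B) (hJ1 : 1 ≤ J) (hJ : l < 2 ^ J)
    (𝒮 : Finset (Finset ι)) (hS : ∀ S ∈ 𝒮, S.card = l)
    (hbig : (64 * (r * B * J)) ^ l < 𝒮.card) :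
    ∃ 𝒯 : Finset (Finset ι), 𝒯 ⊆ 𝒮 ∧ 𝒯.card = r ∧
      ∃ Y : Finset ι, ∀ S ∈ 𝒯, ∀ T ∈ 𝒯, S ≠ T → S ∩ T = Y := by
  classical
  have hQpos : 0 < r * B * J := by positivity
  obtain ⟨Q, hQ⟩ : ∃ Q, Q = r * B * J := ⟨_, rfl⟩
  have : NeZero Q := ⟨by rw [hQ]; exact hQpos.ne'⟩
  rw [← hQ] at hbig
  obtain ⟨Y, ⟨S₀, hS₀, hYS₀⟩, hfail⟩ := Pool.Agent.H560R2.robust_sunflower (Q := Q) B J (64 * Q) l
    le_rfl hJ 𝒮 hS hbig
  have hYl : Y.card < l := by
    have := Finset.card_lt_card hYS₀
    rw [hS S₀ hS₀] at this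
    exact this
  obtain ⟨σ, hσ⟩ := disjoint_perms (X0 B J Q) r (card_X0_le r B J Q (by rw [hQ]))
  -- the sample attached to `x` and `i`
  let om : Fin r → (ι → (Fin B → Fin J → Fin Q)) → (Fin B → Fin J → ι → Fin Q) :=
    fun i x b j v => (σ i (x v)) b j
  have hominj : ∀ i, Function.Injective (om i) := by
    intro i x x' h
    funext v
    apply (σ i).injective
    funext b j
    exact congrFun (congrFun (congrFun h b) j) v
  set Fail := (univ : Finset (Fin B → Fin J → ι → Fin Q)).filter
        (fun ω => ∀ S ∈ 𝒮, Y ⊆ S → ¬ S \ Y ⊆ Pool.Agent.H560R2.WB ω) with hFail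
  have hex : ∃ x : ι → (Fin B → Fin J → Fin Q), ∀ i, om i x ∉ Fail := by
    by_contra hcon
    push Not at hcon
    have hcov : (univ : Finset (ι → (Fin B → Fin J → Fin Q))) ⊆
        (univ : Finset (Fin r)).biUnion (fun i => univ.filter (fun x => om i x ∈ Fail)) := by
      intro x _
      obtain ⟨i, hi⟩ := hcon x
      simp only [Finset.mem_biUnion, Finset.mem_univ, true_and, Finset.mem_filter]
      exact ⟨i, hi⟩
    have h1 : Fintype.card (ι → (Fin B → Fin J → Fin Q)) ≤ r * Fail.card := by
      calc Fintype.card (ι → (Fin B → Fin J → Fin Q))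
          = (univ : Finset (ι → (Fin B → Fin J → Fin Q))).card := rfl
        _ ≤ _ := Finset.card_le_card hcov
        _ ≤ ∑ i : Fin r, (univ.filter (fun x => om i x ∈ Fail)).card := Finset.card_biUnion_le
        _ ≤ ∑ i : Fin r, Fail.card := by
            refine Finset.sum_le_sum (fun i _ => ?_)
            apply Finset.card_le_card_of_injOn (om i)
            · intro x hx
              exact (Finset.mem_filter.mp hx).2
            · exact (hominj i).injOn
        _ = r * Fail.card := by
            rw [Finset.sum_const, Finset.card_univ, Fintype.card_fin, smul_eq_mul]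
    have h2 : Fintype.card (ι → (Fin B → Fin J → Fin Q)) = ((Q ^ Fintype.card ι) ^ J) ^ B := by
      simp only [Fintype.card_fun, Fintype.card_fin]
      rw [← pow_mul, ← pow_mul, ← pow_mul, ← pow_mul]
      congr 1
      ring
    have hpos : 0 < ((Q ^ Fintype.card ι) ^ J) ^ B := by
      have : 0 < Q := Nat.pos_of_ne_zero (NeZero.ne Q)
      positivity
    rw [h2] at h1
    have h3 : ((Q ^ Fintype.card ι) ^ J) ^ B * 4 ^ B ≤ r * ((Q ^ Fintype.card ι) ^ J) ^ B := by
      calc ((Q ^ Fintype.card ι) ^ J) ^ B * 4 ^ B ≤ r * Fail.card * 4 ^ B :=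
            Nat.mul_le_mul_right _ h1
        _ = r * (Fail.card * 4 ^ B) := by ring
        _ ≤ r * ((Q ^ Fintype.card ι) ^ J) ^ B := Nat.mul_le_mul_left _ hfail
    have h4 : 4 ^ B ≤ r := by
      apply Nat.le_of_mul_le_mul_left _ hpos
      calc ((Q ^ Fintype.card ι) ^ J) ^ B * 4 ^ B ≤ r * ((Q ^ Fintype.card ι) ^ J) ^ B := h3
        _ = _ := by ring
    omega
  obtain ⟨x, hx⟩ := hex
  have hch : ∀ i : Fin r, ∃ S, S ∈ 𝒮 ∧ Y ⊆ S ∧ S \ Y ⊆ Pool.Agent.H560R2.WB (om i x) := by
    intro i
    have := hx i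
    rw [hFail, Finset.mem_filter] at this
    push Not at this
    obtain ⟨S, h1, h2, h3⟩ := this (mem_univ _)
    exact ⟨S, h1, h2, h3⟩
  choose T hT1 hT2 hT3 using hch
  have hdis : ∀ i j v, v ∈ T i → v ∈ T j → v ∉ Y → i = j := by
    intro i j v hi hj hv
    have h1 := hT3 i (Finset.mem_sdiff.mpr ⟨hi, hv⟩)
    have h2 := hT3 j (Finset.mem_sdiff.mpr ⟨hj, hv⟩)
    rw [Pool.Agent.H560R2.mem_WB] at h1 h2
    exact hσ (x v) i j ((mem_X0 _).mpr h1) ((mem_X0 _).mpr h2)
  have hTinj : Function.Injective T := by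
    intro i j hij
    have hne : (T i \ Y).Nonempty := by
      rw [← Finset.card_pos, Finset.card_sdiff_of_subset (hT2 i), hS _ (hT1 i)]
      omega
    obtain ⟨v, hv⟩ := hne
    obtain ⟨hv1, hv2⟩ := Finset.mem_sdiff.mp hv
    exact hdis i j v hv1 (hij ▸ hv1) hv2
  refine ⟨univ.image T, ?_, ?_, Y, ?_⟩
  · intro S hSm
    obtain ⟨i, _, rfl⟩ := Finset.mem_image.mp hSm
    exact hT1 i
  · rw [Finset.card_image_of_injective _ hTinj, Finset.card_univ, Fintype.card_fin]
  · intro S hSm S' hSm' hne
    obtain ⟨i, _, rfl⟩ := Finset.mem_image.mp hSm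
    obtain ⟨j, _, rfl⟩ := Finset.mem_image.mp hSm'
    apply Finset.Subset.antisymm
    · intro v hv
      obtain ⟨h1, h2⟩ := Finset.mem_inter.mp hv
      by_contra hvY
      exact hne (by rw [hdis i j v h1 h2 hvY])
    · intro v hv
      exact Finset.mem_inter.mpr ⟨hT2 i hv, hT2 j hv⟩

/-- `F` contains no `r` members with the same pairwise intersection. -/
def SunFree (r : ℕ) (F : Finset (Finset ℕ)) : Prop :=
  ¬ ∃ T : Finset (Finset ℕ), T ⊆ F ∧ T.card = r ∧
      ∃ Y : Finset ℕ, ∀ S ∈ T, ∀ S' ∈ T, S ≠ S' → S ∩ S' = Y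

theorem sunflower_bound (r l : ℕ) (hr : 1 ≤ r) (F : Finset (Finset ℕ))
    (hF : ∀ S ∈ F, S.card = l) (hfree : SunFree r F) :
    F.card ≤ (64 * (r * (Nat.log 4 r + 1) * (Nat.log 2 l + 1))) ^ l := by
  classical
  by_contra hcon
  push Not at hcon
  apply hfree
  set U : Finset ℕ := F.biUnion id with hU
  have hsub : ∀ S ∈ F, ∀ v ∈ S, v ∈ U := by
    intro S hS v hv
    exact Finset.mem_biUnion.mpr ⟨S, hS, hv⟩
  let f : Finset ℕ → Finset {x // x ∈ U} := fun S => S.subtype (fun x => x ∈ U)
  have hfm : ∀ S ∈ F, (f S).map (Function.Embedding.subtype _) = S := by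
    intro S hS
    rw [Finset.subtype_map]
    exact Finset.filter_true_of_mem (hsub S hS)
  have hinj : Set.InjOn f F := by
    intro S hS S' hS' h
    rw [← hfm S hS, ← hfm S' hS', h]
  have hcard : (F.image f).card = F.card := Finset.card_image_of_injOn hinj
  obtain ⟨T, hT1, hT2, Y, hY⟩ := sunflower_fintype r (Nat.log 4 r + 1) (Nat.log 2 l + 1) l hr
    (Nat.lt_pow_succ_log_self (by norm_num) r) (by omega) (by omega)
    (Nat.lt_pow_succ_log_self (by norm_num) l) (F.image f) (by
      intro S hS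
      obtain ⟨S', hS', rfl⟩ := Finset.mem_image.mp hS
      have := congrArg Finset.card (hfm S' hS')
      rw [Finset.card_map] at this
      rw [this, hF S' hS']) (by rw [hcard]; exact hcon)
  let g : Finset {x // x ∈ U} → Finset ℕ := fun S => S.map (Function.Embedding.subtype _)
  have hginj : Function.Injective g := by
    intro S S' h
    exact Finset.map_injective _ h
  refine ⟨T.image g, ?_, ?_, g Y, ?_⟩
  · intro S hS
    obtain ⟨S', hS', rfl⟩ := Finset.mem_image.mp hS
    obtain ⟨S'', hS'', rfl⟩ := Finset.mem_image.mp (hT1 hS')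
    rw [show g (f S'') = S'' from hfm S'' hS'']
    exact hS''
  · rw [Finset.card_image_of_injective _ hginj, hT2]
  · intro S hS S' hS' hne
    obtain ⟨R, hR, rfl⟩ := Finset.mem_image.mp hS
    obtain ⟨R', hR', rfl⟩ := Finset.mem_image.mp hS'
    have hne' : R ≠ R' := fun h => hne (by rw [h])
    rw [← hY R hR R' hR' hne']
    exact (Finset.map_inter _ _).symm

end Pool.Agent.U515.SF
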